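import Pool.Agent.R456.RN.KNMIN2

/-! KNMIN, part 3: assembly -/

set_option autoImplicit false

namespace R877.RN
open Matrix Filter Topology

namespace KNm

variable {n : ℕ}

theorem comm_diag {T : Set (Mat n)} {d : Fin n → ℝ} {r : ℝ} (hd : diagonal (fun i => d i + r) ∈ T)
    {c : Mat n} (hc : InC T c) : c * diagonal d = diagonal d * c := by
  have h := hc.2 _ hd
  have e : (diagonal (fun i => d i + r) : Mat n) = diagonal d + r • (1 : Mat n) := by
    rw [← diagonal_one, ← diagonal_smul, diagonal_add]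
    congr 1
    funext i
    simp
  rw [e, Matrix.add_mul, Matrix.mul_add, smul_mul_assoc, mul_smul_comm, Matrix.one_mul,
    Matrix.mul_one] at h
  exact (add_right_cancel h).symm

theorem adm_of (T : Set (Mat n)) (hT : ∀ S ∈ T, Sᵀ ∈ T) {c : Mat n} (hc : InC T c) {l : Mat n}
    {a : Fin n → ℝ} (hl : l * lᵀ = 1)
    (h : cᵀ * c = lᵀ * diagonal (fun i => Real.exp (2 * a i)) * l) : Adm T l a := by
  refine ⟨hl, fun S hS k i => ?_⟩
  have h1 : S * c = c * S := hc.2 S hS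
  have h2 : cᵀ * S = S * cᵀ := by
    have := congrArg Matrix.transpose (hc.2 _ (hT S hS))
    rw [transpose_mul, transpose_mul, transpose_transpose] at this
    exact this
  have h3 : S * (cᵀ * c) = (cᵀ * c) * S := by
    rw [← Matrix.mul_assoc, ← h2, Matrix.mul_assoc, h1, Matrix.mul_assoc]
  have h4 : (l * S * lᵀ) * diagonal (fun i => Real.exp (2 * a i)) =
      diagonal (fun i => Real.exp (2 * a i)) * (l * S * lᵀ) := by
    calc (l * S * lᵀ) * diagonal (fun i => Real.exp (2 * a i))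
        = l * (S * (lᵀ * diagonal (fun i => Real.exp (2 * a i)) * l)) * lᵀ := by
          simp only [Matrix.mul_assoc]
          rw [hl, Matrix.mul_one]
      _ = l * ((lᵀ * diagonal (fun i => Real.exp (2 * a i)) * l) * S) * lᵀ := by
          rw [← h, h3]
      _ = (l * lᵀ) * diagonal (fun i => Real.exp (2 * a i)) * (l * S * lᵀ) := by
          simp only [Matrix.mul_assoc]
      _ = _ := by rw [hl, Matrix.one_mul]
  have h5 := congrFun (congrFun h4 k) i
  rw [Matrix.mul_diagonal, Matrix.diagonal_mul] at h5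
  by_cases hx : (l * S * lᵀ) k i = 0
  · rw [hx, zero_mul]
  · have h6 : Real.exp (2 * a i) = Real.exp (2 * a k) := by
      rw [mul_comm] at h5
      exact mul_right_cancel₀ hx h5
    have h7 := Real.exp_injective h6
    have h8 : a i - a k = 0 := by linarith
    rw [h8, mul_zero]

theorem bwd (T : Set (Mat n)) {l : Mat n} {a : Fin n → ℝ} (h : Adm T l a) :
    ∃ c : Mat n, InC T c ∧ cᵀ * c = lᵀ * diagonal (fun i => Real.exp (2 * a i)) * l := by
  have hl2 : l * lᵀ = 1 := h.1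
  have hl' : lᵀ * l = 1 := mul_eq_one_comm.mp hl2
  obtain ⟨D, hD⟩ : ∃ D : Mat n, D = diagonal (fun i => Real.exp (a i)) := ⟨_, rfl⟩
  obtain ⟨D', hD'⟩ : ∃ D' : Mat n, D' = diagonal (fun i => Real.exp (-a i)) := ⟨_, rfl⟩
  have hDD : D * D' = 1 := by
    rw [hD, hD', diagonal_mul_diagonal, ← diagonal_one]
    congr 1
    funext i
    rw [← Real.exp_add, add_neg_cancel, Real.exp_zero]
  have hE : diagonal (fun i => Real.exp (2 * a i)) = D * D := by
    rw [hD, diagonal_mul_diagonal]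
    congr 1
    funext i
    rw [← Real.exp_add, two_mul]
  have hDt : Dᵀ = D := by rw [hD, diagonal_transpose]
  refine ⟨lᵀ * D * l, ⟨?_, fun S hS => ?_⟩, ?_⟩
  · have : (lᵀ * D * l) * (lᵀ * D' * l) = 1 := by
      calc (lᵀ * D * l) * (lᵀ * D' * l) = lᵀ * D * (l * lᵀ) * D' * l := by
            simp only [Matrix.mul_assoc]
        _ = lᵀ * (D * D') * l := by rw [hl2, Matrix.mul_one]; simp only [Matrix.mul_assoc]
        _ = 1 := by rw [hDD, Matrix.mul_one, hl']
    exact Matrix.isUnit_det_of_right_inverse this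
  · have hc : (l * S * lᵀ) * D = D * (l * S * lᵀ) := by
      ext k i
      rw [hD, Matrix.mul_diagonal, Matrix.diagonal_mul]
      rcases mul_eq_zero.1 (h.2 S hS k i) with h0 | h0
      · rw [h0]; ring
      · have : a i = a k := by linarith
        rw [this]; ring
    calc S * (lᵀ * D * l) = (lᵀ * l) * S * (lᵀ * D * l) := by rw [hl', Matrix.one_mul]
      _ = lᵀ * ((l * S * lᵀ) * D) * l := by simp only [Matrix.mul_assoc]
      _ = lᵀ * (D * (l * S * lᵀ)) * l := by rw [hc]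
      _ = (lᵀ * D * l) * S * (lᵀ * l) := by simp only [Matrix.mul_assoc]
      _ = (lᵀ * D * l) * S := by rw [hl', Matrix.mul_one]
  · rw [transpose_mul, transpose_mul, transpose_transpose, hDt, hE]
    calc lᵀ * (D * l) * (lᵀ * D * l) = lᵀ * D * (l * lᵀ) * D * l := by
          simp only [Matrix.mul_assoc]
      _ = lᵀ * (D * D) * l := by rw [hl2, Matrix.mul_one]; simp only [Matrix.mul_assoc]

theorem exmin (T : Set (Mat n)) (F : Mat n → (Fin n → ℝ) → ℝ)
    (hF : Continuous fun x : Mat n × (Fin n → ℝ) => F x.1 x.2) (R B : ℝ) (hR : F 1 0 ≤ R)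
    (hB : ∀ l a, Adm T l a → F l a ≤ R → ‖a‖ ≤ B) :
    ∃ l0 a0, Adm T l0 a0 ∧ ∀ l a, Adm T l a → F l0 a0 ≤ F l a := by
  have h10 : Adm T (1 : Mat n) 0 := by
    refine ⟨by rw [transpose_one, Matrix.mul_one], fun S _ k i => ?_⟩
    rw [Pi.zero_apply, Pi.zero_apply, sub_zero, mul_zero]
  have hcl : IsClosed {x : Mat n × (Fin n → ℝ) | ∀ S ∈ T, ∀ k i,
      (x.1 * S * x.1ᵀ) k i * (x.2 i - x.2 k) = 0} := by
    have e : {x : Mat n × (Fin n → ℝ) | ∀ S ∈ T, ∀ k i,
        (x.1 * S * x.1ᵀ) k i * (x.2 i - x.2 k) = 0} = ⋂ S ∈ T, ⋂ k, ⋂ i,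
          {x : Mat n × (Fin n → ℝ) | (x.1 * S * x.1ᵀ) k i * (x.2 i - x.2 k) = 0} := by
      ext x
      simp only [Set.mem_setOf_eq, Set.mem_iInter]
    rw [e]
    refine isClosed_iInter fun S => isClosed_iInter fun _ => isClosed_iInter fun k =>
      isClosed_iInter fun i => isClosed_eq ?_ continuous_const
    exact ((cont_conj S k i).comp continuous_fst).mul
      (((continuous_apply i).comp continuous_snd).sub ((continuous_apply k).comp continuous_snd))
  have hcpt : IsCompact (({l : Mat n | l * lᵀ = 1} ×ˢ Metric.closedBall (0 : Fin n → ℝ) B) ∩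
      {x : Mat n × (Fin n → ℝ) | ∀ S ∈ T, ∀ k i,
        (x.1 * S * x.1ᵀ) k i * (x.2 i - x.2 k) = 0}) :=
    (cptO.prod (isCompact_closedBall _ _)).inter_right hcl
  have hmem : ∀ (l : Mat n) (a : Fin n → ℝ), Adm T l a → F l a ≤ R → (l, a) ∈
      (({l : Mat n | l * lᵀ = 1} ×ˢ Metric.closedBall (0 : Fin n → ℝ) B) ∩
      {x : Mat n × (Fin n → ℝ) | ∀ S ∈ T, ∀ k i,
        (x.1 * S * x.1ᵀ) k i * (x.2 i - x.2 k) = 0}) := by
    intro l a h1 h2
    refine ⟨⟨h1.1, ?_⟩, h1.2⟩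
    rw [mem_closedBall_zero_iff]
    exact hB l a h1 h2
  obtain ⟨x0, hx0, hmin⟩ := hcpt.exists_isMinOn ⟨_, hmem 1 0 h10 hR⟩ hF.continuousOn
  have hadm : Adm T x0.1 x0.2 := ⟨hx0.1.1, hx0.2⟩
  have hmin' : ∀ (l : Mat n) (a : Fin n → ℝ), Adm T l a → F l a ≤ R → F x0.1 x0.2 ≤ F l a := by
    intro l a h1 h2
    have := isMinOn_iff.1 hmin (l, a) (hmem l a h1 h2)
    exact this
  refine ⟨x0.1, x0.2, hadm, fun l a h => ?_⟩
  by_cases hle : F l a ≤ R
  · exact hmin' l a h hle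
  · exact ((hmin' 1 0 h10 hR).trans hR).trans (not_le.1 hle).le

end KNm

open KNm in
theorem p_KNMIN (hM : P_ACTMUL) (hC : P_CHI) : P_KNMIN := by
  intro n μ N T d r hT hd hcrit
  obtain ⟨B, hB⟩ := coer d μ N T hcrit (Psi d μ N 1 0)
  obtain ⟨l0, a0, hadm, hmin⟩ := exmin T (Psi d μ N) (cont_Psi d μ N) (Psi d μ N 1 0) B le_rfl hB
  obtain ⟨c0, hc0, hcc⟩ := bwd T hadm
  refine ⟨c0, hc0, fun c hc => ?_⟩
  obtain ⟨l, a, hl, hla⟩ := fwd c hc.1
  have had : Adm T l a := adm_of T hT hc hl hla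
  have f0 : Phi d μ N c0 = Psi d μ N l0 a0 :=
    formula hM hC d μ N c0 l0 a0 hc0.1 (comm_diag hd hc0) hadm.1 hcc
  have f1 : Phi d μ N c = Psi d μ N l a :=
    formula hM hC d μ N c l a hc.1 (comm_diag hd hc) hl hla
  have hm : Psi d μ N l0 a0 ≤ Psi d μ N l a := hmin l a had
  rw [← f0, ← f1] at hm
  exact hm

end R877.RN
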