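import Pool.Agent.R877.RN.Stm

/-! KNMIN, part 1: the Kempf-Ness function in polar coordinates -/

set_option autoImplicit false

namespace R877.RN
open Matrix Filter Topology

namespace KNm

variable {n : ℕ}

/-- `act` for orthogonal frames -/
def actT (l : Mat n) (μ : Br n) : Br n := fun i j k =>
  ∑ p, ∑ q, ∑ r, l k r * μ p q r * l i p * l j q

theorem inv_eq {l : Mat n} (h : IsO l) : l⁻¹ = lᵀ := Matrix.inv_eq_right_inv h

theorem act_eq {l : Mat n} (h : IsO l) (μ : Br n) : act l μ = actT l μ := by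
  unfold act actT
  rw [inv_eq h]
  rfl

theorem nrm1 {l : Mat n} (h : lᵀ * l = 1) (x : Fin n → ℝ) :
    ∑ i, (∑ p, l i p * x p) ^ 2 = ∑ p, (x p) ^ 2 := by
  have h1 : (l *ᵥ x) ⬝ᵥ (l *ᵥ x) = x ⬝ᵥ x := by
    rw [Matrix.dotProduct_mulVec, ← Matrix.mulVec_transpose, Matrix.mulVec_mulVec, h,
      Matrix.one_mulVec]
  simpa [dotProduct, mulVec, sq] using h1

theorem nrm3 {l : Mat n} (h : lᵀ * l = 1) (ν : Br n) :
    ∑ i, ∑ j, ∑ k, (actT l ν i j k) ^ 2 = ∑ i, ∑ j, ∑ k, (ν i j k) ^ 2 := by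
  have e : ∀ i j k, actT l ν i j k = ∑ p, l i p * ∑ q, l j q * ∑ r, l k r * ν p q r := by
    intro i j k
    unfold actT
    simp only [Finset.mul_sum]
    refine Finset.sum_congr rfl fun p _ => Finset.sum_congr rfl fun q _ =>
      Finset.sum_congr rfl fun r _ => ?_
    ring
  simp only [e]
  calc ∑ i, ∑ j, ∑ k, (∑ p, l i p * ∑ q, l j q * ∑ r, l k r * ν p q r) ^ 2
      = ∑ j, ∑ k, ∑ i, (∑ p, l i p * ∑ q, l j q * ∑ r, l k r * ν p q r) ^ 2 := by
        rw [Finset.sum_comm]
        refine Finset.sum_congr rfl fun j _ => ?_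
        rw [Finset.sum_comm]
    _ = ∑ j, ∑ k, ∑ p, (∑ q, l j q * ∑ r, l k r * ν p q r) ^ 2 :=
        Finset.sum_congr rfl fun j _ => Finset.sum_congr rfl fun k _ =>
          nrm1 h (fun p => ∑ q, l j q * ∑ r, l k r * ν p q r)
    _ = ∑ k, ∑ p, ∑ j, (∑ q, l j q * ∑ r, l k r * ν p q r) ^ 2 := by
        rw [Finset.sum_comm]
        refine Finset.sum_congr rfl fun j _ => ?_
        rw [Finset.sum_comm]
    _ = ∑ k, ∑ p, ∑ q, (∑ r, l k r * ν p q r) ^ 2 :=
        Finset.sum_congr rfl fun k _ => Finset.sum_congr rfl fun p _ =>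
          nrm1 h (fun q => ∑ r, l k r * ν p q r)
    _ = ∑ p, ∑ q, ∑ k, (∑ r, l k r * ν p q r) ^ 2 := by
        rw [Finset.sum_comm]
        refine Finset.sum_congr rfl fun j _ => ?_
        rw [Finset.sum_comm]
    _ = ∑ p, ∑ q, ∑ r, (ν p q r) ^ 2 :=
        Finset.sum_congr rfl fun p _ => Finset.sum_congr rfl fun q _ =>
          nrm1 h (fun r => ν p q r)

theorem nrm2 {l : Mat n} (h : lᵀ * l = 1) (X : Mat n) :
    ∑ i, ∑ j, ((l * X * lᵀ) i j) ^ 2 = ∑ i, ∑ j, (X i j) ^ 2 := by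
  have e : ∀ i j, (l * X * lᵀ) i j = ∑ p, l i p * ∑ q, l j q * X p q := by
    intro i j
    simp only [Matrix.mul_apply, Matrix.transpose_apply, Finset.sum_mul, Finset.mul_sum]
    rw [Finset.sum_comm]
    refine Finset.sum_congr rfl fun p _ => Finset.sum_congr rfl fun q _ => ?_
    ring
  simp only [e]
  calc ∑ i, ∑ j, (∑ p, l i p * ∑ q, l j q * X p q) ^ 2
      = ∑ j, ∑ i, (∑ p, l i p * ∑ q, l j q * X p q) ^ 2 := by
        rw [Finset.sum_comm]
    _ = ∑ j, ∑ p, (∑ q, l j q * X p q) ^ 2 :=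
        Finset.sum_congr rfl fun j _ => nrm1 h (fun p => ∑ q, l j q * X p q)
    _ = ∑ p, ∑ j, (∑ q, l j q * X p q) ^ 2 := by
        rw [Finset.sum_comm]
    _ = ∑ p, ∑ q, (X p q) ^ 2 :=
        Finset.sum_congr rfl fun p _ => nrm1 h (fun q => X p q)

/-- the Kempf-Ness function in polar coordinates -/
noncomputable def Psi (d : Fin n → ℝ) (μ : Br n) (N : Mat n) (l : Mat n) (a : Fin n → ℝ) : ℝ :=
  (1/8) * ∑ i, ∑ j, ∑ k, Real.exp (2 * (a k - a i - a j)) * (actT l μ i j k) ^ 2
  + (1/4) * ∑ i, ∑ j, Real.exp (2 * (a i - a j)) * ((l * N * lᵀ) i j) ^ 2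
  + (1/2) * ∑ i, Real.exp (2 * a i) - ∑ i, a i * (l * diagonal d * lᵀ) i i

theorem formula (hM : P_ACTMUL) (hC : P_CHI) (d : Fin n → ℝ) (μ : Br n) (N c l : Mat n)
    (a : Fin n → ℝ) (hc : IsUnit c.det) (hcd : c * diagonal d = diagonal d * c) (hl : IsO l)
    (h : cᵀ * c = lᵀ * diagonal (fun i => Real.exp (2 * a i)) * l) :
    Phi d μ N c = Psi d μ N l a := by
  obtain ⟨D, hD⟩ : ∃ D : Mat n, D = diagonal (fun i => Real.exp (a i)) := ⟨_, rfl⟩
  obtain ⟨D', hD'⟩ : ∃ D' : Mat n, D' = diagonal (fun i => Real.exp (-a i)) := ⟨_, rfl⟩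
  have hDD : D * D' = 1 := by
    rw [hD, hD', diagonal_mul_diagonal, ← diagonal_one]
    congr 1
    funext i
    rw [← Real.exp_add, add_neg_cancel, Real.exp_zero]
  have hD'D : D' * D = 1 := mul_eq_one_comm.mp hDD
  have hE : diagonal (fun i => Real.exp (2 * a i)) = D * D := by
    rw [hD, diagonal_mul_diagonal]
    congr 1
    funext i
    rw [← Real.exp_add, two_mul]
  have hl2 : l * lᵀ = 1 := hl
  have hl' : lᵀ * l = 1 := mul_eq_one_comm.mp hl2
  obtain ⟨k, hk⟩ : ∃ k : Mat n, k = c * lᵀ * D' := ⟨_, rfl⟩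
  have hDt : D'ᵀ = D' := by rw [hD', diagonal_transpose]
  have hkk : kᵀ * k = 1 := by
    calc kᵀ * k = D' * (l * (cᵀ * c) * lᵀ) * D' := by
          rw [hk, transpose_mul, transpose_mul, transpose_transpose, hDt]
          simp only [Matrix.mul_assoc]
      _ = D' * ((l * lᵀ) * (D * D) * (l * lᵀ)) * D' := by
          rw [h, hE]
          simp only [Matrix.mul_assoc]
      _ = (D' * D) * (D * D') := by
          rw [hl2, Matrix.one_mul, Matrix.mul_one]
          simp only [Matrix.mul_assoc]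
      _ = 1 := by rw [hDD, hD'D, Matrix.one_mul]
  have hkk' : k * kᵀ = 1 := mul_eq_one_comm.mp hkk
  have hck : c = k * (D * l) := by
    calc c = c * (lᵀ * l) := by rw [hl', Matrix.mul_one]
      _ = c * lᵀ * (D' * D) * l := by rw [hD'D, Matrix.mul_one]; simp only [Matrix.mul_assoc]
      _ = k * (D * l) := by rw [hk]; simp only [Matrix.mul_assoc]
  have hinv : c⁻¹ = lᵀ * D' * kᵀ := by
    refine Matrix.inv_eq_right_inv ?_
    calc c * (lᵀ * D' * kᵀ) = (c * lᵀ * D') * kᵀ := by simp only [Matrix.mul_assoc]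
      _ = 1 := by rw [← hk, hkk']
  have uk : IsUnit k.det := Matrix.isUnit_det_of_left_inverse hkk
  have uD : IsUnit D.det := Matrix.isUnit_det_of_left_inverse hD'D
  have ul : IsUnit l.det := Matrix.isUnit_det_of_left_inverse hl'
  have uDl : IsUnit (D * l).det := by
    rw [Matrix.det_mul]
    exact uD.mul ul
  have hDinv : D⁻¹ = D' := Matrix.inv_eq_right_inv hDD
  -- first term
  have t1 : ∑ i, ∑ j, ∑ r, (act c μ i j r) ^ 2 =
      ∑ i, ∑ j, ∑ r, Real.exp (2 * (a r - a i - a j)) * (actT l μ i j r) ^ 2 := by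
    have e1 : act c μ = actT k (act D (actT l μ)) := by
      calc act c μ = act (k * (D * l)) μ := by rw [← hck]
        _ = act k (act (D * l) μ) := hM n k (D * l) μ uk uDl
        _ = act k (act D (act l μ)) := by rw [hM n D l μ uD ul]
        _ = actT k (act D (actT l μ)) := by rw [act_eq hl, act_eq (show IsO k from hkk')]
    rw [e1, nrm3 hkk]
    refine Finset.sum_congr rfl fun i _ => Finset.sum_congr rfl fun j _ =>
      Finset.sum_congr rfl fun r _ => ?_
    have e2 : act D (actT l μ) i j r =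
        Real.exp (a r) * actT l μ i j r * Real.exp (-a i) * Real.exp (-a j) := by
      unfold act
      rw [hDinv, hD, hD']
      rw [Finset.sum_eq_single i, Finset.sum_eq_single j, Finset.sum_eq_single r]
      · simp only [Matrix.diagonal_apply_eq]
      · intro b _ hb
        rw [Matrix.diagonal_apply_ne _ (Ne.symm hb)]
        ring
      · intro h; exact absurd (Finset.mem_univ _) h
      · intro b _ hb
        refine Finset.sum_eq_zero fun x _ => ?_
        rw [Matrix.diagonal_apply_ne (fun i => Real.exp (-a i)) hb]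
        ring
      · intro h; exact absurd (Finset.mem_univ _) h
      · intro b _ hb
        refine Finset.sum_eq_zero fun x _ => Finset.sum_eq_zero fun y _ => ?_
        rw [Matrix.diagonal_apply_ne (fun i => Real.exp (-a i)) hb]
        ring
      · intro h; exact absurd (Finset.mem_univ _) h
    have e3 : Real.exp (2 * (a r - a i - a j)) =
        (Real.exp (a r) * Real.exp (-a i) * Real.exp (-a j)) ^ 2 := by
      rw [← Real.exp_add, ← Real.exp_add, ← Real.exp_nat_mul]
      have : 2 * (a r - a i - a j) = ((2 : ℕ) : ℝ) * (a r + -a i + -a j) := by push_cast; ring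
      rw [this]
    rw [e2, e3]
    ring
  -- second term
  have t2 : ∑ i, ∑ j, (conj c N i j) ^ 2 =
      ∑ i, ∑ j, Real.exp (2 * (a i - a j)) * ((l * N * lᵀ) i j) ^ 2 := by
    have e1 : conj c N = k * (D * (l * N * lᵀ) * D') * kᵀ := by
      calc conj c N = c * N * c⁻¹ := rfl
        _ = (k * (D * l)) * N * (lᵀ * D' * kᵀ) := by rw [hinv, ← hck]
        _ = k * (D * (l * N * lᵀ) * D') * kᵀ := by simp only [Matrix.mul_assoc]
    rw [e1, nrm2 hkk]
    refine Finset.sum_congr rfl fun i _ => Finset.sum_congr rfl fun j _ => ?_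
    have e2 : (D * (l * N * lᵀ) * D') i j =
        Real.exp (a i) * (l * N * lᵀ) i j * Real.exp (-a j) := by
      rw [hD', Matrix.mul_diagonal, hD, Matrix.diagonal_mul]
    have e3 : Real.exp (2 * (a i - a j)) = (Real.exp (a i) * Real.exp (-a j)) ^ 2 := by
      rw [← Real.exp_add, ← Real.exp_nat_mul]
      have : 2 * (a i - a j) = ((2 : ℕ) : ℝ) * (a i + -a j) := by push_cast; ring
      rw [this]
    rw [e2, e3]
    ring
  -- third term
  have t3 : ∑ i, ∑ j, (c i j) ^ 2 = ∑ i, Real.exp (2 * a i) := by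
    have e1 : (cᵀ * c).trace = ∑ i, ∑ j, (c i j) ^ 2 := by
      unfold Matrix.trace
      simp only [Matrix.diag_apply, Matrix.mul_apply, Matrix.transpose_apply, sq]
      rw [Finset.sum_comm]
    rw [← e1, h, Matrix.trace_mul_comm, ← Matrix.mul_assoc, hl2, Matrix.one_mul,
      Matrix.trace_diagonal]
  unfold Phi Psi
  rw [t1, t2, t3, hC n d c l a hc hcd hl h]

/-- polar decomposition data -/
theorem fwd (c : Mat n) (hc : IsUnit c.det) : ∃ (l : Mat n) (a : Fin n → ℝ), IsO l ∧
    cᵀ * c = lᵀ * diagonal (fun i => Real.exp (2 * a i)) * l := by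
  have hinj : Function.Injective c.mulVec :=
    Matrix.mulVec_injective_of_isUnit ((Matrix.isUnit_iff_isUnit_det c).2 hc)
  have hpd : (cᴴ * c).PosDef := Matrix.PosDef.conjTranspose_mul_self c hinj
  have hH := hpd.isHermitian
  have hs := hH.spectral_theorem
  rw [Unitary.conjStarAlgAut_apply] at hs
  obtain ⟨U, hU⟩ : ∃ U : Mat n, U = (hH.eigenvectorUnitary : Mat n) := ⟨_, rfl⟩
  have hUU : Uᵀ * U = 1 := by
    have := Unitary.star_mul_self_of_mem hH.eigenvectorUnitary.2
    rw [Matrix.star_eq_conjTranspose, Matrix.conjTranspose_eq_transpose_of_trivial] at this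
    rw [hU]
    exact this
  rw [← hU, Matrix.star_eq_conjTranspose, Matrix.conjTranspose_eq_transpose_of_trivial U] at hs
  have hct : cᵀ * c = cᴴ * c := by rw [Matrix.conjTranspose_eq_transpose_of_trivial c]
  refine ⟨Uᵀ, fun i => Real.log (hH.eigenvalues i) / 2, ?_, ?_⟩
  · show Uᵀ * Uᵀᵀ = 1
    rw [transpose_transpose]
    exact hUU
  · rw [transpose_transpose]
    have e : (diagonal fun i => Real.exp (2 * (Real.log (hH.eigenvalues i) / 2))) =
        diagonal ((RCLike.ofReal : ℝ → ℝ) ∘ hH.eigenvalues) := by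
      congr 1
      funext i
      rw [mul_div_cancel₀ _ (two_ne_zero), Real.exp_log (hpd.eigenvalues_pos i)]
      rfl
    rw [e, hct]
    exact hs

end KNm

end R877.RN
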