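import Pool.Agent.R456.RN.KNMIN1

/-! KNMIN, part 2: existence of a minimiser -/

set_option autoImplicit false

namespace R877.RN
open Matrix Filter Topology

namespace KNm

variable {n : ℕ}

/-- admissible polar coordinates -/
def Adm (T : Set (Mat n)) (l : Mat n) (a : Fin n → ℝ) : Prop :=
  l * lᵀ = 1 ∧ ∀ S ∈ T, ∀ k i, (l * S * lᵀ) k i * (a i - a k) = 0

theorem cont_actT (μ : Br n) (i j k : Fin n) : Continuous (fun l : Mat n => actT l μ i j k) := by
  have hent : ∀ i j, Continuous (fun l : Mat n => l i j) := fun i j =>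
    continuous_id.matrix_elem i j
  unfold actT
  exact continuous_finsetSum _ fun p _ => continuous_finsetSum _ fun q _ =>
    continuous_finsetSum _ fun r _ => (((hent k r).mul continuous_const).mul (hent i p)).mul (hent j q)

theorem cont_conj (X : Mat n) (i j : Fin n) : Continuous (fun l : Mat n => (l * X * lᵀ) i j) :=
  ((continuous_id.matrix_mul continuous_const).matrix_mul
    continuous_id.matrix_transpose).matrix_elem i j

theorem cont_X (d : Fin n → ℝ) : Continuous (fun x : Mat n × (Fin n → ℝ) =>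
    ∑ i, x.2 i * (x.1 * diagonal d * x.1ᵀ) i i) := by
  have ha : ∀ i, Continuous (fun x : Mat n × (Fin n → ℝ) => x.2 i) := fun i =>
    (continuous_apply i).comp continuous_snd
  exact continuous_finsetSum _ fun i _ => (ha i).mul ((cont_conj (diagonal d) i i).comp continuous_fst)

theorem cont_Psi (d : Fin n → ℝ) (μ : Br n) (N : Mat n) :
    Continuous (fun x : Mat n × (Fin n → ℝ) => Psi d μ N x.1 x.2) := by
  have ha : ∀ i, Continuous (fun x : Mat n × (Fin n → ℝ) => x.2 i) := fun i =>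
    (continuous_apply i).comp continuous_snd
  unfold Psi
  refine (((continuous_const.mul ?_).add (continuous_const.mul ?_)).add
    (continuous_const.mul ?_)).sub (cont_X d)
  · refine continuous_finsetSum _ fun i _ => continuous_finsetSum _ fun j _ =>
      continuous_finsetSum _ fun k _ => ?_
    exact (Real.continuous_exp.comp (continuous_const.mul (((ha k).sub (ha i)).sub (ha j)))).mul
      (((cont_actT μ i j k).comp continuous_fst).pow 2)
  · refine continuous_finsetSum _ fun i _ => continuous_finsetSum _ fun j _ => ?_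
    exact (Real.continuous_exp.comp (continuous_const.mul ((ha i).sub (ha j)))).mul
      (((cont_conj N i j).comp continuous_fst).pow 2)
  · exact continuous_finsetSum _ fun i _ => Real.continuous_exp.comp (continuous_const.mul (ha i))

theorem cptO : IsCompact {l : Mat n | l * lᵀ = 1} := by
  have hcl : IsClosed {l : Mat n | l * lᵀ = 1} :=
    isClosed_eq (continuous_id.matrix_mul continuous_id.matrix_transpose) continuous_const
  have hc : IsCompact (Set.pi Set.univ fun _ : Fin n =>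
      Set.pi Set.univ fun _ : Fin n => Set.Icc (-1 : ℝ) 1) :=
    isCompact_univ_pi fun _ => isCompact_univ_pi fun _ => isCompact_Icc
  refine IsCompact.of_isClosed_subset (t := {l : Mat n | l * lᵀ = 1}) (s := (Set.pi Set.univ
    fun _ : Fin n => Set.pi Set.univ fun _ : Fin n => Set.Icc (-1 : ℝ) 1 : Set (Mat n))) hc hcl ?_
  intro l hl i _ j _
  have h1 : ∑ q, l i q * l i q = 1 := by
    have := congrFun (congrFun hl i) i
    simpa [Matrix.mul_apply] using this
  have h2 : l i j * l i j ≤ 1 := by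
    rw [← h1]
    exact Finset.single_le_sum (f := fun q => l i q * l i q) (fun q _ => mul_self_nonneg _)
      (Finset.mem_univ j)
  constructor
  · nlinarith
  · nlinarith

theorem expo (t β u : ℕ → ℝ) (β0 u0 K : ℝ) (ht : Tendsto t atTop atTop)
    (hβ : Tendsto β atTop (𝓝 β0)) (hu : Tendsto u atTop (𝓝 u0))
    (h : ∀ᶠ m in atTop, Real.exp (2 * (t m * β m)) * (u m) ^ 2 ≤ K * t m) (hu0 : u0 ≠ 0) :
    β0 ≤ 0 := by
  by_contra hlt
  have hlt : 0 < β0 := not_le.1 hlt
  have q0 : 0 < u0 ^ 2 / 2 := by positivity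
  have hu2 : Tendsto (fun m => (u m) ^ 2) atTop (𝓝 (u0 ^ 2)) := hu.pow 2
  have h1 : ∀ᶠ m in atTop, β0 / 2 < β m := hβ.eventually (lt_mem_nhds (by linarith))
  have h2 : ∀ᶠ m in atTop, u0 ^ 2 / 2 < (u m) ^ 2 := hu2.eventually (lt_mem_nhds (by linarith))
  have h3 : ∀ᶠ m in atTop, max 1 (2 * K / (u0 ^ 2 / 2 * β0 ^ 2) + 1) ≤ t m :=
    ht.eventually_ge_atTop _
  obtain ⟨m, a1, a2, a3, a4⟩ := (h1.and (h2.and (h3.and h))).exists
  have t1 : 1 ≤ t m := le_trans (le_max_left _ _) a3
  have t2 : 2 * K / (u0 ^ 2 / 2 * β0 ^ 2) + 1 ≤ t m := le_trans (le_max_right _ _) a3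
  have e1 : t m * β0 ≤ 2 * (t m * β m) := by nlinarith
  have e2 : (t m * β0) ^ 2 / 2 ≤ Real.exp (2 * (t m * β m)) := by
    have p0 : 0 ≤ t m * β0 := mul_nonneg (by linarith) hlt.le
    have p1 := Real.quadratic_le_exp_of_nonneg p0
    have p2 := Real.exp_le_exp.2 e1
    linarith
  have e3 : (t m * β0) ^ 2 / 2 * (u0 ^ 2 / 2) ≤ K * t m :=
    le_trans (mul_le_mul e2 a2.le q0.le (Real.exp_pos _).le) a4
  have e4 : t m * (u0 ^ 2 / 2 * β0 ^ 2) ≤ 2 * K := by
    have : t m * (t m * (u0 ^ 2 / 2 * β0 ^ 2)) ≤ t m * (2 * K) := by nlinarith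
    exact le_of_mul_le_mul_left this (by linarith)
  have e5 : 2 * K / (u0 ^ 2 / 2 * β0 ^ 2) < t m := by linarith
  rw [div_lt_iff₀ (by positivity)] at e5
  linarith

theorem coer (d : Fin n → ℝ) (μ : Br n) (N : Mat n) (T : Set (Mat n))
    (hcrit : ∀ (l : Mat n) (a : Fin n → ℝ), IsO l → (∀ i, 0 ≤ a i) → (∃ i, 0 < a i) → CB l a μ →
      CM l a N → (∀ S ∈ T, CS l a S) → 0 < dt (diagonal d) l a) (R : ℝ) :
    ∃ B : ℝ, ∀ l a, Adm T l a → Psi d μ N l a ≤ R → ‖a‖ ≤ B := by
  by_contra hcon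
  push Not at hcon
  choose L A h1 h2 h3 using fun m : ℕ => hcon (m : ℝ)
  obtain ⟨t, ht⟩ : ∃ t : ℕ → ℝ, t = fun m => ‖A m‖ := ⟨_, rfl⟩
  have htm : ∀ m, t m = ‖A m‖ := fun m => by rw [ht]
  have htpos : ∀ m, 0 < t m := fun m => by
    rw [htm]; exact (Nat.cast_nonneg m).trans_lt (h3 m)
  have htt : Tendsto t atTop atTop :=
    tendsto_atTop_mono (fun m => by rw [htm]; exact (h3 m).le) tendsto_natCast_atTop_atTop
  obtain ⟨b, hb⟩ : ∃ b : ℕ → (Fin n → ℝ), ∀ m, b m = (t m)⁻¹ • A m := ⟨_, fun m => rfl⟩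
  have hb1 : ∀ m, ‖b m‖ = 1 := fun m => by
    rw [hb, norm_smul, norm_inv, Real.norm_of_nonneg (htpos m).le, ← htm]
    exact inv_mul_cancel₀ (htpos m).ne'
  have hAb : ∀ m i, A m i = t m * b m i := fun m i => by
    rw [hb]
    simp only [Pi.smul_apply, smul_eq_mul]
    rw [← mul_assoc, mul_inv_cancel₀ (htpos m).ne', one_mul]
  have hK : IsCompact ({l : Mat n | l * lᵀ = 1} ×ˢ Metric.sphere (0 : Fin n → ℝ) 1) :=
    cptO.prod (isCompact_sphere _ _)
  have : FirstCountableTopology (Mat n) :=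
    inferInstanceAs (FirstCountableTopology (Fin n → Fin n → ℝ))
  obtain ⟨⟨l, β⟩, hmem, φ, hφ, hlim⟩ := hK.tendsto_subseq (x := fun m => (L m, b m))
    (fun m => ⟨(h1 m).1, by simp [hb1 m]⟩)
  have hl : l * lᵀ = 1 := hmem.1
  have hβ1 : ‖β‖ = 1 := by simpa using hmem.2
  have hL : Tendsto (fun m => L (φ m)) atTop (𝓝 l) := (continuous_fst.tendsto _).comp hlim
  have hB : Tendsto (fun m => b (φ m)) atTop (𝓝 β) := (continuous_snd.tendsto _).comp hlim
  have hBi : ∀ i, Tendsto (fun m => b (φ m) i) atTop (𝓝 (β i)) := fun i =>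
    ((continuous_apply i).tendsto _).comp hB
  have htφ : Tendsto (fun m => t (φ m)) atTop atTop := htt.comp hφ.tendsto_atTop
  obtain ⟨X, hX⟩ : ∃ X : ℕ → ℝ, ∀ m, X m = ∑ i, b (φ m) i * (L (φ m) * diagonal d * (L (φ m))ᵀ) i i :=
    ⟨_, fun m => rfl⟩
  obtain ⟨X0, hX0⟩ : ∃ X0 : ℝ, X0 = ∑ i, β i * (l * diagonal d * lᵀ) i i := ⟨_, rfl⟩
  have hXlim : Tendsto X atTop (𝓝 X0) := by
    have h := ((cont_X d).tendsto (l, β)).comp hlim
    have e : X = (fun x : Mat n × (Fin n → ℝ) => ∑ i, x.2 i * (x.1 * diagonal d * x.1ᵀ) i i) ∘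
        ((fun m => (L m, b m)) ∘ φ) := by
      funext m
      rw [hX]
      rfl
    rw [e, hX0]
    exact h
  -- decomposition of Psi
  obtain ⟨G1, hG1⟩ : ∃ G : ℕ → ℝ, ∀ m, G m = ∑ i, ∑ j, ∑ k,
    Real.exp (2 * (t (φ m) * (b (φ m) k - b (φ m) i - b (φ m) j))) *
      (actT (L (φ m)) μ i j k) ^ 2 := ⟨_, fun m => rfl⟩
  obtain ⟨G2, hG2⟩ : ∃ G : ℕ → ℝ, ∀ m, G m = ∑ i, ∑ j,
    Real.exp (2 * (t (φ m) * (b (φ m) i - b (φ m) j))) *
      ((L (φ m) * N * (L (φ m))ᵀ) i j) ^ 2 := ⟨_, fun m => rfl⟩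
  obtain ⟨G3, hG3⟩ : ∃ G : ℕ → ℝ, ∀ m, G m = ∑ i, Real.exp (2 * (t (φ m) * b (φ m) i)) :=
    ⟨_, fun m => rfl⟩
  have hPsi : ∀ m, Psi d μ N (L (φ m)) (A (φ m)) =
      (1/8) * G1 m + (1/4) * G2 m + (1/2) * G3 m - t (φ m) * X m := by
    intro m
    have s1 : ∑ i, ∑ j, ∑ k, Real.exp (2 * (A (φ m) k - A (φ m) i - A (φ m) j)) *
        (actT (L (φ m)) μ i j k) ^ 2 = G1 m := by
      rw [hG1]
      refine Finset.sum_congr rfl fun i _ => Finset.sum_congr rfl fun j _ =>
        Finset.sum_congr rfl fun k _ => ?_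
      rw [hAb, hAb, hAb, mul_sub (t (φ m)), mul_sub (t (φ m))]
    have s2 : ∑ i, ∑ j, Real.exp (2 * (A (φ m) i - A (φ m) j)) *
        ((L (φ m) * N * (L (φ m))ᵀ) i j) ^ 2 = G2 m := by
      rw [hG2]
      refine Finset.sum_congr rfl fun i _ => Finset.sum_congr rfl fun j _ => ?_
      rw [hAb, hAb, mul_sub (t (φ m))]
    have s3 : ∑ i, Real.exp (2 * A (φ m) i) = G3 m := by
      rw [hG3]
      refine Finset.sum_congr rfl fun i _ => ?_
      rw [hAb]
    have s4 : ∑ i, A (φ m) i * (L (φ m) * diagonal d * (L (φ m))ᵀ) i i = t (φ m) * X m := by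
      rw [hX, Finset.mul_sum]
      refine Finset.sum_congr rfl fun i _ => ?_
      rw [hAb, mul_assoc]
    unfold Psi
    rw [s1, s2, s3, s4]
  have hG1n : ∀ m, 0 ≤ G1 m := fun m => by
    rw [hG1]
    exact Finset.sum_nonneg fun i _ => Finset.sum_nonneg fun j _ => Finset.sum_nonneg fun k _ =>
      mul_nonneg (Real.exp_pos _).le (sq_nonneg _)
  have hG2n : ∀ m, 0 ≤ G2 m := fun m => by
    rw [hG2]
    exact Finset.sum_nonneg fun i _ => Finset.sum_nonneg fun j _ =>
      mul_nonneg (Real.exp_pos _).le (sq_nonneg _)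
  have hG3n : ∀ m, 0 ≤ G3 m := fun m => by
    rw [hG3]
    exact Finset.sum_nonneg fun i _ => (Real.exp_pos _).le
  have hle : ∀ m, (1/8) * G1 m + (1/4) * G2 m + (1/2) * G3 m ≤ R + t (φ m) * X m := fun m => by
    have := h2 (φ m)
    rw [hPsi] at this
    linarith
  -- X0 ≥ 0
  have hX0n : 0 ≤ X0 := by
    have hlim2 : Tendsto (fun m => X m + R / t (φ m)) atTop (𝓝 (X0 + 0)) :=
      hXlim.add (tendsto_const_nhds.div_atTop htφ)
    rw [add_zero] at hlim2
    refine ge_of_tendsto' hlim2 fun m => ?_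
    have p := hle m
    have q1 := hG1n m
    have q2 := hG2n m
    have q3 := hG3n m
    have hp : 0 ≤ R + t (φ m) * X m := by linarith
    have e : X m + R / t (φ m) = (R + t (φ m) * X m) / t (φ m) := by
      field_simp [(htpos (φ m)).ne']
      ring
    rw [e]
    exact div_nonneg hp (htpos _).le
  -- bound
  have hbound : ∀ᶠ m in atTop, R + t (φ m) * X m ≤ (|R| + |X0| + 1) * t (φ m) := by
    have p1 : ∀ᶠ m in atTop, X m < X0 + 1 := hXlim.eventually (gt_mem_nhds (by linarith))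
    filter_upwards [p1, htφ.eventually_ge_atTop 1] with m a1 a2
    have q1 : R ≤ |R| * t (φ m) := by
      have := le_abs_self R
      nlinarith [abs_nonneg R]
    have q2 : X m ≤ |X0| + 1 := by linarith [le_abs_self X0]
    have q3 : t (φ m) * X m ≤ t (φ m) * (|X0| + 1) := mul_le_mul_of_nonneg_left q2 (by linarith)
    linarith
  have hone : ∀ i, β i ≤ 0 := by
    intro i
    refine expo (fun m => t (φ m)) (fun m => b (φ m) i) (fun _ => 1) (β i) 1
      (2 * (|R| + |X0| + 1)) htφ (hBi i) tendsto_const_nhds ?_ one_ne_zero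
    filter_upwards [hbound] with m hm
    have p := hle m
    have q1 := hG1n m
    have q2 := hG2n m
    have q3 : Real.exp (2 * (t (φ m) * b (φ m) i)) ≤ G3 m := by
      rw [hG3]
      exact Finset.single_le_sum (f := fun i => Real.exp (2 * (t (φ m) * b (φ m) i)))
        (fun i _ => (Real.exp_pos _).le) (Finset.mem_univ i)
    rw [one_pow, mul_one]
    linarith
  have htwo : ∀ i j, (l * N * lᵀ) i j ≠ 0 → β i - β j ≤ 0 := by
    intro i j hne
    refine expo (fun m => t (φ m)) (fun m => b (φ m) i - b (φ m) j)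
      (fun m => (L (φ m) * N * (L (φ m))ᵀ) i j) (β i - β j) ((l * N * lᵀ) i j)
      (4 * (|R| + |X0| + 1)) htφ ((hBi i).sub (hBi j))
      (((cont_conj N i j).tendsto l).comp hL) ?_ hne
    filter_upwards [hbound] with m hm
    have p := hle m
    have q1 := hG1n m
    have q3 := hG3n m
    have q2 : Real.exp (2 * (t (φ m) * (b (φ m) i - b (φ m) j))) *
        ((L (φ m) * N * (L (φ m))ᵀ) i j) ^ 2 ≤ G2 m := by
      rw [hG2]
      refine le_trans ?_ (Finset.single_le_sum (f := fun i => ∑ j,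
        Real.exp (2 * (t (φ m) * (b (φ m) i - b (φ m) j))) *
          ((L (φ m) * N * (L (φ m))ᵀ) i j) ^ 2) (fun i _ => Finset.sum_nonneg fun j _ =>
            mul_nonneg (Real.exp_pos _).le (sq_nonneg _)) (Finset.mem_univ i))
      exact Finset.single_le_sum (f := fun j =>
        Real.exp (2 * (t (φ m) * (b (φ m) i - b (φ m) j))) *
          ((L (φ m) * N * (L (φ m))ᵀ) i j) ^ 2) (fun j _ =>
            mul_nonneg (Real.exp_pos _).le (sq_nonneg _)) (Finset.mem_univ j)
    linarith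
  have hthree : ∀ i j k, actT l μ i j k ≠ 0 → β k - β i - β j ≤ 0 := by
    intro i j k hne
    refine expo (fun m => t (φ m)) (fun m => b (φ m) k - b (φ m) i - b (φ m) j)
      (fun m => actT (L (φ m)) μ i j k) (β k - β i - β j) (actT l μ i j k)
      (8 * (|R| + |X0| + 1)) htφ (((hBi k).sub (hBi i)).sub (hBi j))
      (((cont_actT μ i j k).tendsto l).comp hL) ?_ hne
    filter_upwards [hbound] with m hm
    have p := hle m
    have q2 := hG2n m
    have q3 := hG3n m
    have q1 : Real.exp (2 * (t (φ m) * (b (φ m) k - b (φ m) i - b (φ m) j))) *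
        (actT (L (φ m)) μ i j k) ^ 2 ≤ G1 m := by
      rw [hG1]
      refine le_trans ?_ (Finset.single_le_sum (f := fun i => ∑ j, ∑ k,
        Real.exp (2 * (t (φ m) * (b (φ m) k - b (φ m) i - b (φ m) j))) *
          (actT (L (φ m)) μ i j k) ^ 2) (fun i _ => Finset.sum_nonneg fun j _ =>
            Finset.sum_nonneg fun k _ =>
            mul_nonneg (Real.exp_pos _).le (sq_nonneg _)) (Finset.mem_univ i))
      refine le_trans ?_ (Finset.single_le_sum (f := fun j => ∑ k,
        Real.exp (2 * (t (φ m) * (b (φ m) k - b (φ m) i - b (φ m) j))) *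
          (actT (L (φ m)) μ i j k) ^ 2) (fun j _ => Finset.sum_nonneg fun k _ =>
            mul_nonneg (Real.exp_pos _).le (sq_nonneg _)) (Finset.mem_univ j))
      exact Finset.single_le_sum (f := fun k =>
        Real.exp (2 * (t (φ m) * (b (φ m) k - b (φ m) i - b (φ m) j))) *
          (actT (L (φ m)) μ i j k) ^ 2) (fun k _ =>
            mul_nonneg (Real.exp_pos _).le (sq_nonneg _)) (Finset.mem_univ k)
    linarith
  have hCS : ∀ S ∈ T, ∀ k i, (l * S * lᵀ) k i * (β i - β k) = 0 := by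
    intro S hS k i
    have hlim3 : Tendsto (fun m => (L (φ m) * S * (L (φ m))ᵀ) k i * (b (φ m) i - b (φ m) k)) atTop
        (𝓝 ((l * S * lᵀ) k i * (β i - β k))) :=
      (((cont_conj S k i).tendsto l).comp hL).mul ((hBi i).sub (hBi k))
    have hz : (fun m => (L (φ m) * S * (L (φ m))ᵀ) k i * (b (φ m) i - b (φ m) k)) = fun _ => 0 := by
      funext m
      have h := (h1 (φ m)).2 S hS k i
      rw [hAb, hAb, ← mul_sub, ← mul_assoc, mul_comm _ (t (φ m)), mul_assoc] at h
      rcases mul_eq_zero.1 h with h | h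
      · exact absurd h (htpos _).ne'
      · exact h
    rw [hz] at hlim3
    exact (tendsto_nhds_unique hlim3 tendsto_const_nhds)
  have hfin := hcrit l (fun i => -β i) hl (fun i => by linarith [hone i]) ?_ ?_ ?_ ?_
  · have e : dt (diagonal d) l (fun i => -β i) = -X0 := by
      unfold dt
      rw [hX0, ← Finset.sum_neg_distrib]
      refine Finset.sum_congr rfl fun i _ => ?_
      ring
    rw [e] at hfin
    linarith
  · by_contra hno
    push Not at hno
    have hz : β = 0 := by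
      funext i
      have := hno i
      have := hone i
      show β i = 0
      linarith
    rw [hz, norm_zero] at hβ1
    exact zero_ne_one hβ1
  · intro i j k hne
    rw [act_eq hl] at hne
    have := hthree i j k hne
    show -β i + -β j ≤ -β k
    linarith
  · intro i j hne
    have := htwo i j hne
    show -β j ≤ -β i
    linarith
  · intro S hS k i hne
    have := hCS S hS k i
    rcases mul_eq_zero.1 this with h | h
    · exact absurd h hne
    · show -β i = -β k
      linarith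


end KNm

end R877.RN
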